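import Mathlib

/-!
# Increasing bijections of the real line: a gluing lemma and the window homomorphism
-/

set_option autoImplicit false

namespace Pool.Agent.Q145.H2

open Equiv

lemma ai (f : Perm ℝ) (x : ℝ) : f (f⁻¹ x) = x := f.apply_symm_apply x

lemma ia (f : Perm ℝ) (x : ℝ) : f⁻¹ (f x) = x := f.symm_apply_apply x

lemma sm_inv {f : Perm ℝ} (hf : StrictMono f) : StrictMono (f⁻¹ : Perm ℝ) := by
  intro a b hab
  by_contra h
  push Not at h
  have := hf.monotone h
  rw [ai, ai] at this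
  linarith

lemma sm_mul {f g : Perm ℝ} (hf : StrictMono f) (hg : StrictMono g) :
    StrictMono (f * g : Perm ℝ) := hf.comp hg

lemma sm_one : StrictMono (1 : Perm ℝ) := fun _ _ h => h

/-- Gluing increasing maps of the windows `[n, n+1)`. -/
theorem glue (lam : ℤ → ℝ → ℝ) (x : ℤ → ℝ)
    (h0 : ∀ n, lam n 0 = x n)
    (hmono : ∀ n s t, 0 ≤ s → s < t → t < 1 → lam n s < lam n t)
    (hlt : ∀ n t, 0 ≤ t → t < 1 → lam n t < x (n + 1))
    (hsurj : ∀ n y, x n ≤ y → y < x (n + 1) → ∃ t, 0 ≤ t ∧ t < 1 ∧ lam n t = y)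
    (hup : ∀ y, ∃ n, y < x n) (hdown : ∀ y, ∃ n, x n ≤ y) :
    ∃ f : Perm ℝ, StrictMono f ∧ ∀ y, f y = lam ⌊y⌋ (Int.fract y) := by
  have hx1 : ∀ n, x n < x (n + 1) := fun n => by
    have := hlt n 0 le_rfl one_pos
    rwa [h0] at this
  have hx : StrictMono x := strictMono_int_of_lt_succ hx1
  have hle : ∀ n t, 0 ≤ t → t < 1 → x n ≤ lam n t := by
    intro n t h1 h2
    rcases h1.lt_or_eq with h | h
    · rw [← h0]; exact (hmono n 0 t le_rfl h h2).le
    · rw [← h, h0]
  have hsm : StrictMono (fun y : ℝ => lam ⌊y⌋ (Int.fract y)) := by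
    intro a b hab
    rcases (Int.floor_mono hab.le).lt_or_eq with h | h
    · calc lam ⌊a⌋ (Int.fract a) < x (⌊a⌋ + 1) := hlt _ _ (Int.fract_nonneg a) (Int.fract_lt_one a)
        _ ≤ x ⌊b⌋ := hx.monotone (by omega)
        _ ≤ lam ⌊b⌋ (Int.fract b) := hle _ _ (Int.fract_nonneg b) (Int.fract_lt_one b)
    · simp only
      rw [h]
      apply hmono _ _ _ (Int.fract_nonneg a) _ (Int.fract_lt_one b)
      have h1 := Int.floor_add_fract a
      have h2 := Int.floor_add_fract b
      rw [h] at h1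
      linarith
  have hsu : Function.Surjective (fun y : ℝ => lam ⌊y⌋ (Int.fract y)) := by
    intro y
    obtain ⟨N, hN⟩ := hup y
    obtain ⟨M, hM⟩ := hdown y
    have hbdd : ∃ b : ℤ, ∀ z : ℤ, x z ≤ y → z ≤ b := by
      refine ⟨N, fun z hz => ?_⟩
      by_contra hc
      push Not at hc
      have := hx hc
      linarith
    obtain ⟨n, hn1, hn2⟩ := Int.exists_greatest_of_bdd hbdd ⟨M, hM⟩
    have hn3 : y < x (n + 1) := by
      by_contra hc
      push Not at hc
      have := hn2 _ hc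
      omega
    obtain ⟨t, ht0, ht1, ht⟩ := hsurj n y hn1 hn3
    refine ⟨n + t, ?_⟩
    have hf : ⌊(n : ℝ) + t⌋ = n := by
      rw [Int.floor_eq_iff]
      constructor <;> linarith
    have hfr : Int.fract ((n : ℝ) + t) = t := by
      rw [Int.fract, hf]; ring
    simp only [hf, hfr, ht]
  exact ⟨Equiv.ofBijective _ ⟨hsm.injective, hsu⟩, hsm, fun y => rfl⟩

/-- Piecewise linear interpolation: an increasing bijection with prescribed values at the
integers. -/
theorem interp (x : ℤ → ℝ) (hx : ∀ n, x n < x (n + 1))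
    (hup : ∀ y, ∃ n, y < x n) (hdown : ∀ y, ∃ n, x n ≤ y) :
    ∃ f : Perm ℝ, StrictMono f ∧ ∀ n : ℤ, f n = x n := by
  obtain ⟨f, hf, hv⟩ := glue (fun n t => x n + t * (x (n + 1) - x n)) x (by intro n; simp)
    (by
      intro n s t _ hst _
      have := hx n
      have : s * (x (n + 1) - x n) < t * (x (n + 1) - x n) :=
        mul_lt_mul_of_pos_right hst (by linarith)
      linarith)
    (by
      intro n t _ ht
      have := hx n
      have : t * (x (n + 1) - x n) < 1 * (x (n + 1) - x n) :=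
        mul_lt_mul_of_pos_right ht (by linarith)
      linarith)
    (by
      intro n y h1 h2
      have h3 := hx n
      have hpos : 0 < x (n + 1) - x n := by linarith
      refine ⟨(y - x n) / (x (n + 1) - x n), div_nonneg (by linarith) hpos.le, ?_, ?_⟩
      · rw [div_lt_one hpos]; linarith
      · rw [div_mul_cancel₀ _ hpos.ne']; ring)
    hup hdown
  refine ⟨f, hf, fun n => ?_⟩
  rw [hv]
  simp

/-! ### The coordinate `th : ℝ → (0, 1)` -/

/-- An increasing bijection of `ℝ` onto `(0,1)`. -/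
noncomputable def th (t : ℝ) : ℝ := (((orderIsoIooNegOneOne ℝ) (t - 1 / 2) : ℝ) + 1) / 2

lemma th_mono : StrictMono th := by
  intro a b hab
  unfold th
  have : (orderIsoIooNegOneOne ℝ) (a - 1 / 2) < (orderIsoIooNegOneOne ℝ) (b - 1 / 2) :=
    (orderIsoIooNegOneOne ℝ).strictMono (by linarith)
  have h2 : (((orderIsoIooNegOneOne ℝ) (a - 1 / 2)) : ℝ) < ((orderIsoIooNegOneOne ℝ) (b - 1 / 2)) :=
    this
  linarith

lemma th_pos (t : ℝ) : 0 < th t := by
  unfold th
  have := ((orderIsoIooNegOneOne ℝ) (t - 1 / 2)).2.1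
  linarith

lemma th_lt (t : ℝ) : th t < 1 := by
  unfold th
  have := ((orderIsoIooNegOneOne ℝ) (t - 1 / 2)).2.2
  linarith

lemma th_surj {s : ℝ} (h0 : 0 < s) (h1 : s < 1) : ∃ t, th t = s := by
  refine ⟨(orderIsoIooNegOneOne ℝ).symm ⟨2 * s - 1, by constructor <;> linarith⟩ + 1 / 2, ?_⟩
  unfold th
  simp

lemma th_zero : th 0 = 1 / 3 := by
  unfold th orderIsoIooNegOneOne
  simp only [StrictMono.orderIsoOfRightInverse]
  norm_num [abs_of_pos, Set.codRestrict]

lemma th_one : th 1 = 2 / 3 := by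
  unfold th orderIsoIooNegOneOne
  simp only [StrictMono.orderIsoOfRightInverse]
  norm_num [abs_of_pos, Set.codRestrict]

/-- The inverse of `th`. -/
noncomputable def thi (s : ℝ) : ℝ := Function.invFun th s

lemma thi_th (t : ℝ) : thi (th t) = t := Function.leftInverse_invFun th_mono.injective t

lemma th_thi {s : ℝ} (h0 : 0 < s) (h1 : s < 1) : th (thi s) = s := by
  obtain ⟨t, rfl⟩ := th_surj h0 h1
  rw [thi_th]

lemma floor_th (n : ℤ) (t : ℝ) : ⌊(n : ℝ) + th t⌋ = n := by
  rw [Int.floor_eq_iff]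
  constructor
  · have := th_pos t; linarith
  · have := th_lt t; linarith

lemma fract_th (n : ℤ) (t : ℝ) : Int.fract ((n : ℝ) + th t) = th t := by
  rw [Int.fract, floor_th]; ring

lemma cases_th (x : ℝ) : (∃ n : ℤ, x = n) ∨ ∃ (n : ℤ) (t : ℝ), x = n + th t := by
  by_cases h : Int.fract x = 0
  · left
    refine ⟨⌊x⌋, ?_⟩
    have := Int.floor_add_fract x
    rw [h] at this
    linarith
  · right
    have h0 : 0 < Int.fract x := lt_of_le_of_ne (Int.fract_nonneg x) (Ne.symm h)
    obtain ⟨t, ht⟩ := th_surj h0 (Int.fract_lt_one x)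
    refine ⟨⌊x⌋, t, ?_⟩
    rw [ht]
    exact (Int.floor_add_fract x).symm

/-! ### The window homomorphism -/

/-- Act by `g n` in the window `(n, n+1)`. -/
noncomputable def Ef (g : ℤ → ℝ → ℝ) (x : ℝ) : ℝ :=
  if Int.fract x = 0 then x else ⌊x⌋ + th (g ⌊x⌋ (thi (Int.fract x)))

lemma Ef_int (g : ℤ → ℝ → ℝ) (n : ℤ) : Ef g n = n := by
  unfold Ef
  simp

lemma Ef_th (g : ℤ → ℝ → ℝ) (n : ℤ) (t : ℝ) : Ef g (n + th t) = n + th (g n t) := by
  unfold Ef
  rw [fract_th, floor_th, thi_th, if_neg (th_pos t).ne']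

/-- Act by `g n` in the window `(n, n+1)`, as a permutation. -/
noncomputable def E (g : ℤ → Perm ℝ) : Perm ℝ where
  toFun := Ef fun n => g n
  invFun := Ef fun n => (g n).symm
  left_inv := by
    intro x
    rcases cases_th x with ⟨n, rfl⟩ | ⟨n, t, rfl⟩
    · rw [Ef_int, Ef_int]
    · rw [Ef_th, Ef_th, Equiv.symm_apply_apply]
  right_inv := by
    intro x
    rcases cases_th x with ⟨n, rfl⟩ | ⟨n, t, rfl⟩
    · rw [Ef_int, Ef_int]
    · rw [Ef_th, Ef_th, Equiv.apply_symm_apply]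

lemma E_int (g : ℤ → Perm ℝ) (n : ℤ) : E g n = n := Ef_int (fun n => g n) n

lemma E_th (g : ℤ → Perm ℝ) (n : ℤ) (t : ℝ) : E g (n + th t) = n + th (g n t) :=
  Ef_th (fun n => g n) n t

lemma E_mul (g h : ℤ → Perm ℝ) : E (g * h) = E g * E h := by
  ext x
  rcases cases_th x with ⟨n, rfl⟩ | ⟨n, t, rfl⟩
  · simp [E_int]
  · simp [E_th]

lemma E_one : E 1 = 1 := by
  ext x
  rcases cases_th x with ⟨n, rfl⟩ | ⟨n, t, rfl⟩
  · simp [E_int]
  · simp [E_th]

/-- `E` as a homomorphism. -/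
noncomputable def Eh : (ℤ → Perm ℝ) →* Perm ℝ where
  toFun := E
  map_one' := E_one
  map_mul' := E_mul

lemma E_inv (g : ℤ → Perm ℝ) : E (g⁻¹) = (E g)⁻¹ := map_inv Eh g

lemma E_sm {g : ℤ → Perm ℝ} (hg : ∀ n, StrictMono (g n)) : StrictMono (E g) := by
  intro a b hab
  rcases cases_th a with ⟨n, rfl⟩ | ⟨n, t, rfl⟩ <;> rcases cases_th b with ⟨m, rfl⟩ | ⟨m, s, rfl⟩
  · simpa [E_int] using hab
  · rw [E_int, E_th]
    have h1 := th_lt s
    have h2 : (n : ℝ) < (m + 1 : ℤ) := by push_cast; linarith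
    have h3 : n ≤ m := by have := Int.cast_lt.mp h2; omega
    have h4 : (n : ℝ) ≤ m := by exact_mod_cast h3
    have := th_pos (g m s)
    linarith
  · rw [E_int, E_th]
    have h1 := th_pos t
    have h2 : (n : ℝ) < m := by linarith
    have h3 : n + 1 ≤ m := by have := Int.cast_lt.mp h2; omega
    have h4 : (n : ℝ) + 1 ≤ m := by exact_mod_cast h3
    have := th_lt (g n t)
    linarith
  · rw [E_th, E_th]
    rcases lt_trichotomy n m with h | h | h
    · have h4 : (n : ℝ) + 1 ≤ m := by exact_mod_cast h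
      have := th_lt (g n t)
      have := th_pos (g m s)
      linarith
    · subst h
      have h1 : th t < th s := by linarith
      have h2 : t < s := th_mono.lt_iff_lt.mp h1
      have h3 := th_mono (hg n h2)
      linarith
    · exfalso
      have h4 : (m : ℝ) + 1 ≤ n := by exact_mod_cast h
      have := th_lt s
      have := th_pos t
      linarith

lemma E_surj {k : Perm ℝ} (hk : StrictMono k) (hn : ∀ n : ℤ, k n = n) :
    ∃ g : ℤ → Perm ℝ, (∀ n, StrictMono (g n)) ∧ E g = k := by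
  have key : ∀ (k : Perm ℝ), StrictMono k → (∀ n : ℤ, k n = n) → ∀ (n : ℤ) (t : ℝ),
      0 < k (n + th t) - n ∧ k (n + th t) - n < 1 := by
    intro k hk hn n t
    have h1 : (n : ℝ) < n + th t := by have := th_pos t; linarith
    have h2 : (n : ℝ) + th t < ((n + 1 : ℤ) : ℝ) := by have := th_lt t; push_cast; linarith
    have h3 := hk h1
    have h4 := hk h2
    rw [hn] at h3 h4
    push_cast at h4
    constructor <;> linarith
  have hki := sm_inv hk
  have hni : ∀ n : ℤ, (k⁻¹ : Perm ℝ) n = n := by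
    intro n
    rw [Perm.inv_eq_iff_eq, hn]
  have hback : ∀ (k k' : Perm ℝ), StrictMono k → (∀ n : ℤ, k n = n) → (∀ x, k' (k x) = x) →
      ∀ (n : ℤ) (t : ℝ), thi (k' (n + th (thi (k (n + th t) - n))) - n) = t := by
    intro k k' hk hn hkk n t
    rw [th_thi (key k hk hn n t).1 (key k hk hn n t).2]
    have : (n : ℝ) + (k (n + th t) - n) = k (n + th t) := by ring
    rw [this, hkk]
    have : (n : ℝ) + th t - n = th t := by ring
    rw [this, thi_th]
  refine ⟨fun n => ⟨fun t => thi (k (n + th t) - n), fun t => thi ((k⁻¹ : Perm ℝ) (n + th t) - n),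
    fun t => hback k k⁻¹ hk hn (by simp) n t, fun t => hback k⁻¹ k hki hni (by simp) n t⟩, ?_, ?_⟩
  · intro n a b hab
    show thi (k (n + th a) - n) < thi (k (n + th b) - n)
    rw [← th_mono.lt_iff_lt, th_thi (key k hk hn n a).1 (key k hk hn n a).2,
      th_thi (key k hk hn n b).1 (key k hk hn n b).2]
    have := hk (show (n : ℝ) + th a < n + th b by have := th_mono hab; linarith)
    linarith
  · ext x
    rcases cases_th x with ⟨n, rfl⟩ | ⟨n, t, rfl⟩
    · rw [E_int, hn]
    · rw [E_th]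
      show n + th (thi (k (n + th t) - n)) = _
      rw [th_thi (key k hk hn n t).1 (key k hk hn n t).2]
      ring

/-- Translation. -/
noncomputable def tr (c : ℝ) : Perm ℝ := Equiv.addRight c

lemma tr_apply (c x : ℝ) : tr c x = x + c := rfl

lemma tr_mul (c d : ℝ) : tr c * tr d = tr (c + d) := by
  ext x; simp [tr_apply]; ring

lemma tr_inv (c : ℝ) : (tr c)⁻¹ = tr (-c) := by
  rw [inv_eq_iff_mul_eq_one, tr_mul]
  ext x; simp [tr_apply]

lemma tr_inv_apply (c x : ℝ) : (tr c)⁻¹ x = x - c := by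
  rw [tr_inv, tr_apply]; ring

lemma tr_pow (c : ℝ) (m : ℕ) : tr c ^ m = tr (m * c) := by
  induction m with
  | zero => ext x; simp [tr_apply]
  | succ m ih => rw [pow_succ, ih, tr_mul]; congr 1; push_cast; ring

lemma tr_sm (c : ℝ) : StrictMono (tr c) := by
  intro a b hab; simp only [tr_apply]; linarith

lemma E_conj (g : ℤ → Perm ℝ) (m : ℤ) :
    tr m * E g * (tr m)⁻¹ = E (fun n => g (n - m)) := by
  ext x
  simp only [Perm.mul_apply, tr_inv_apply, tr_apply]
  rcases cases_th x with ⟨n, rfl⟩ | ⟨n, t, rfl⟩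
  · have : (n : ℝ) - m = ((n - m : ℤ) : ℝ) := by push_cast; ring
    rw [this, E_int, E_int]; push_cast; ring
  · have : (n : ℝ) + th t - m = ((n - m : ℤ) : ℝ) + th t := by push_cast; ring
    rw [this, E_th, E_th]; push_cast; ring

end Pool.Agent.Q145.H2
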