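import Pool.Agent.Q145.H2.Basic

/-!
# Fragmentation: increasing bijections with bounded displacement

`U` is the set of increasing bijections supported on the intervals `[n/3, (n+1)/3]`,
`n ≡ 4 mod 9`; with the translation by `1/6` they generate all increasing bijections with
bounded displacement.
-/

set_option autoImplicit false

namespace Pool.Agent.Q145.H2

open Equiv

/-- Scaling `x ↦ c x`. -/
noncomputable def sc (c : ℝ) (hc : 0 < c) : Perm ℝ where
  toFun x := c * x
  invFun x := c⁻¹ * x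
  left_inv := by intro x; field_simp
  right_inv := by intro x; field_simp

lemma sc_apply (c : ℝ) (hc : 0 < c) (x : ℝ) : sc c hc x = c * x := rfl

lemma sc_inv_apply (c : ℝ) (hc : 0 < c) (x : ℝ) : (sc c hc)⁻¹ x = c⁻¹ * x := rfl

lemma sc_sm (c : ℝ) (hc : 0 < c) : StrictMono (sc c hc) := by
  intro a b hab
  rw [sc_apply, sc_apply]
  exact mul_lt_mul_of_pos_left hab hc

/-- Scaling by `1/3`. -/
noncomputable def s3 : Perm ℝ := sc (1 / 3) (by norm_num)

lemma s3_apply (x : ℝ) : s3 x = x / 3 := by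
  rw [s3, sc_apply]; ring

lemma s3_inv_apply (x : ℝ) : s3⁻¹ x = 3 * x := by
  rw [s3, sc_inv_apply]; norm_num

lemma s3_sm : StrictMono s3 := sc_sm _ _

/-- The base pieces. -/
def U : Set (Perm ℝ) :=
  {u | ∃ g : ℤ → Perm ℝ, (∀ n, StrictMono (g n)) ∧ (∀ n, n % 9 ≠ 4 → g n = 1) ∧
    u = s3 * E g * s3⁻¹}

/-- The group generated by the translation by `1/6` and the base pieces. -/
noncomputable def HU : Subgroup (Perm ℝ) := Subgroup.closure (insert (tr (1 / 6)) U)

lemma tr_mem : tr (1 / 6) ∈ HU := Subgroup.subset_closure (Set.mem_insert _ _)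

lemma U_mem {u : Perm ℝ} (hu : u ∈ U) : u ∈ HU :=
  Subgroup.subset_closure (Set.mem_insert_of_mem _ hu)

lemma tr_zpow (c : ℝ) (m : ℤ) : tr c ^ m = tr (m * c) := by
  cases m with
  | ofNat m => simpa using tr_pow c m
  | negSucc m => rw [zpow_negSucc, tr_pow, tr_inv]; congr 1; push_cast; ring

lemma s3_tr (m : ℤ) : s3 * tr m * s3⁻¹ = tr (1 / 6) ^ (2 * m) := by
  rw [tr_zpow]
  ext x
  simp only [Perm.mul_apply, s3_inv_apply, tr_apply, s3_apply]
  push_cast; ring

/-- Pieces supported on a class modulo nine. -/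
lemma class_mem (g : ℤ → Perm ℝ) (hg : ∀ n, StrictMono (g n)) (r : ℤ) :
    s3 * E (fun n => if n % 9 = r then g n else 1) * s3⁻¹ ∈ HU := by
  set g' : ℤ → Perm ℝ := fun n => (fun n => if n % 9 = r then g n else 1) (n + (r - 4)) with hg'
  have e : (fun n => if n % 9 = r then g n else 1) = fun n => g' (n - (r - 4)) := by
    funext n
    simp only [hg']
    ring_nf
  have e2 := E_conj g' (r - 4)
  rw [← e] at e2
  rw [← e2]
  have e3 : s3 * (tr ((r - 4 : ℤ) : ℝ) * E g' * (tr ((r - 4 : ℤ) : ℝ))⁻¹) * s3⁻¹ =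
      (s3 * tr ((r - 4 : ℤ) : ℝ) * s3⁻¹) * (s3 * E g' * s3⁻¹) *
        (s3 * tr ((r - 4 : ℤ) : ℝ) * s3⁻¹)⁻¹ := by group
  rw [e3, s3_tr]
  have m1 := HU.zpow_mem tr_mem (2 * (r - 4))
  refine HU.mul_mem (HU.mul_mem m1 (U_mem ⟨g', ?_, ?_, rfl⟩)) (HU.inv_mem m1)
  · intro n
    simp only [hg']
    split_ifs
    · exact hg _
    · exact sm_one
  · intro n hn
    simp only [hg']
    rw [if_neg]
    omega

lemma comb_mem_aux (g : ℤ → Perm ℝ) (hg : ∀ n, StrictMono (g n)) (R : ℕ) (hR : R ≤ 9) :
    s3 * E (fun n => if n % 9 < R then g n else 1) * s3⁻¹ ∈ HU := by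
  induction R with
  | zero =>
    have : (fun n : ℤ => if n % 9 < ((0 : ℕ) : ℤ) then g n else 1) = 1 := by
      funext n
      rw [if_neg]
      · rfl
      · push_cast; omega
    rw [this, E_one]
    have : s3 * 1 * s3⁻¹ = 1 := by group
    rw [this]
    exact HU.one_mem
  | succ R ih =>
    have e : (fun n : ℤ => if n % 9 < ((R + 1 : ℕ) : ℤ) then g n else 1) =
        (fun n : ℤ => if n % 9 < ((R : ℕ) : ℤ) then g n else 1) *
          (fun n : ℤ => if n % 9 = R then g n else 1) := by
      funext n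
      simp only [Pi.mul_apply]
      rcases lt_trichotomy (n % 9) (R : ℤ) with h | h | h
      · rw [if_pos (by push_cast; omega), if_pos h, if_neg (by omega), mul_one]
      · rw [if_pos (by push_cast; omega), if_neg (by omega), if_pos h, one_mul]
      · rw [if_neg (by push_cast; omega), if_neg (by omega), if_neg (by omega), one_mul]
    rw [e, E_mul]
    have e2 : s3 * (E (fun n : ℤ => if n % 9 < ((R : ℕ) : ℤ) then g n else 1) *
        E (fun n : ℤ => if n % 9 = R then g n else 1)) * s3⁻¹ =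
        (s3 * E (fun n : ℤ => if n % 9 < ((R : ℕ) : ℤ) then g n else 1) * s3⁻¹) *
        (s3 * E (fun n : ℤ => if n % 9 = R then g n else 1) * s3⁻¹) := by group
    rw [e2]
    exact HU.mul_mem (ih (by omega)) (class_mem g hg R)

/-- An increasing bijection fixing all `j/3` lies in `HU`. -/
lemma comb_mem {k : Perm ℝ} (hk : StrictMono k) (hj : ∀ j : ℤ, k (j / 3) = j / 3) : k ∈ HU := by
  have h1 : StrictMono (s3⁻¹ * k * s3 : Perm ℝ) := sm_mul (sm_mul (sm_inv s3_sm) hk) s3_sm
  have h2 : ∀ n : ℤ, (s3⁻¹ * k * s3 : Perm ℝ) n = n := by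
    intro n
    simp only [Perm.mul_apply, s3_apply, hj, s3_inv_apply]
    ring
  obtain ⟨g, hg, he⟩ := E_surj h1 h2
  have h3 := comb_mem_aux g hg 9 le_rfl
  have h4 : (fun n : ℤ => if n % 9 < ((9 : ℕ) : ℤ) then g n else 1) = g := by
    funext n
    rw [if_pos]
    push_cast; omega
  rw [h4, he] at h3
  have h5 : s3 * (s3⁻¹ * k * s3) * s3⁻¹ = k := by group
  rwa [h5] at h3

/-- An increasing bijection with displacement less than `1/6` lies in `HU`. -/
lemma small_mem {h : Perm ℝ} (hh : StrictMono h) (hs : ∀ x, |h x - x| < 1 / 6) : h ∈ HU := by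
  set y : ℤ → ℝ := fun m => if m % 2 = 0 then h (m / 6) else m / 6 with hy
  have hlo : ∀ m : ℤ, (m : ℝ) / 6 - 1 / 6 < y m := by
    intro m
    simp only [hy]
    split_ifs
    · have := (abs_lt.mp (hs ((m : ℝ) / 6))).1; linarith
    · linarith
  have hhi : ∀ m : ℤ, y m < (m : ℝ) / 6 + 1 / 6 := by
    intro m
    simp only [hy]
    split_ifs
    · have := (abs_lt.mp (hs ((m : ℝ) / 6))).2; linarith
    · linarith
  have hstep : ∀ m, y m < y (m + 1) := by
    intro m
    rcases Int.emod_two_eq_zero_or_one m with hm | hm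
    · have e : y (m + 1) = (m + 1 : ℤ) / 6 := by
        simp only [hy]; rw [if_neg (by omega)]
      rw [e]
      have := hhi m
      push_cast; linarith
    · have e : y m = m / 6 := by
        simp only [hy]; rw [if_neg (by omega)]
      rw [e]
      have := hlo (m + 1)
      push_cast at this; linarith
  obtain ⟨φ, hφ, hv⟩ := interp y hstep
    (by
      intro z
      refine ⟨⌈6 * z + 1⌉ + 1, ?_⟩
      have h1 := hlo (⌈6 * z + 1⌉ + 1)
      have h2 := Int.le_ceil (6 * z + 1)
      push_cast at h1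
      linarith)
    (by
      intro z
      refine ⟨⌊6 * z - 1⌋ - 1, ?_⟩
      have h1 := hhi (⌊6 * z - 1⌋ - 1)
      have h2 := Int.floor_le (6 * z - 1)
      push_cast at h1
      linarith)
  set v : Perm ℝ := φ * sc 6 (by norm_num) with hvdef
  have hvsm : StrictMono v := sm_mul hφ (sc_sm _ _)
  have hva : ∀ m : ℤ, v (m / 6) = y m := by
    intro m
    rw [hvdef, Perm.mul_apply, sc_apply, ← hv]
    congr 1; ring
  have hv3 : ∀ j : ℤ, v (j / 3) = h (j / 3) := by
    intro j
    have e : (j : ℝ) / 3 = ((2 * j : ℤ) : ℝ) / 6 := by push_cast; ring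
    rw [e, hva]
    simp only [hy]
    rw [if_pos (by omega)]
  have hv6 : ∀ j : ℤ, v (j / 3 + 1 / 6) = j / 3 + 1 / 6 := by
    intro j
    have e : (j : ℝ) / 3 + 1 / 6 = ((2 * j + 1 : ℤ) : ℝ) / 6 := by push_cast; ring
    rw [e, hva]
    simp only [hy]
    rw [if_neg (by omega)]
  have m1 : v⁻¹ * h ∈ HU := by
    apply comb_mem (sm_mul (sm_inv hvsm) hh)
    intro j
    rw [Perm.mul_apply, ← hv3, ia]
  have m2 : (tr (1 / 6))⁻¹ * v * tr (1 / 6) ∈ HU := by
    apply comb_mem (sm_mul (sm_mul (sm_inv (tr_sm _)) hvsm) (tr_sm _))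
    intro j
    rw [Perm.mul_apply, Perm.mul_apply, tr_apply, hv6, tr_inv_apply]
    ring
  have e : h = tr (1 / 6) * ((tr (1 / 6))⁻¹ * v * tr (1 / 6)) * (tr (1 / 6))⁻¹ * (v⁻¹ * h) := by
    group
  rw [e]
  exact HU.mul_mem (HU.mul_mem (HU.mul_mem tr_mem m2) (HU.inv_mem tr_mem)) m1

lemma sm_cont {h : Perm ℝ} (hh : StrictMono h) : Continuous h :=
  hh.monotone.continuous_of_surjective h.surjective

/-- Convex combinations with the identity. -/
lemma conv {h : Perm ℝ} (hh : StrictMono h) {B : ℝ} (hB : ∀ x, |h x - x| ≤ B) {t : ℝ}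
    (h0 : 0 ≤ t) (h1 : t ≤ 1) :
    ∃ p : Perm ℝ, StrictMono p ∧ ∀ x, p x = x + t * (h x - x) := by
  have hB0 : 0 ≤ B := (abs_nonneg _).trans (hB 0)
  have hsm : StrictMono (fun x => x + t * (h x - x)) := by
    intro a b hab
    have h2 := hh hab
    show a + t * (h a - a) < b + t * (h b - b)
    have e : b + t * (h b - b) - (a + t * (h a - a)) = (1 - t) * (b - a) + t * (h b - h a) := by
      ring
    rcases h0.lt_or_eq with h3 | h3
    · have : 0 < t * (h b - h a) := mul_pos h3 (by linarith)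
      have : 0 ≤ (1 - t) * (b - a) := mul_nonneg (by linarith) (by linarith)
      linarith
    · subst h3; simp; exact hab
  have hc : Continuous (fun x => x + t * (h x - x)) := by
    have := sm_cont hh
    fun_prop
  have hb : ∀ x, |t * (h x - x)| ≤ B := by
    intro x
    rw [abs_mul, abs_of_nonneg h0]
    calc t * |h x - x| ≤ 1 * |h x - x| := mul_le_mul_of_nonneg_right h1 (abs_nonneg _)
      _ ≤ B := by rw [one_mul]; exact hB x
  have hsu : Function.Surjective (fun x => x + t * (h x - x)) := by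
    apply hc.surjective
    · apply Filter.tendsto_atTop_mono (f := fun x => x - B)
      · intro x
        have := (abs_le.mp (hb x)).1
        linarith
      · exact Filter.tendsto_atTop_add_const_right _ (-B) Filter.tendsto_id
    · apply Filter.tendsto_atBot_mono (f := fun x => x + B)
      · intro x
        have := (abs_le.mp (hb x)).2
        linarith
      · exact Filter.tendsto_atBot_add_const_right _ B Filter.tendsto_id
  exact ⟨Equiv.ofBijective _ ⟨hsm.injective, hsu⟩, hsm, fun x => rfl⟩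

/-- An increasing bijection with bounded displacement lies in `HU`. -/
theorem bdd_mem {h : Perm ℝ} (hh : StrictMono h) {B : ℝ} (hB : ∀ x, |h x - x| ≤ B) : h ∈ HU := by
  have hB0 : 0 ≤ B := (abs_nonneg _).trans (hB 0)
  obtain ⟨N, hN⟩ := exists_nat_gt (6 * B)
  have hN0 : (0 : ℝ) < N := lt_of_le_of_lt (by linarith) hN
  have key : ∀ k : ℕ, k ≤ N → ∃ p : Perm ℝ, StrictMono p ∧
      (∀ x, p x = x + (k / N : ℝ) * (h x - x)) ∧ p ∈ HU := by
    intro k
    induction k with
    | zero =>
      intro _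
      exact ⟨1, sm_one, fun x => by simp, HU.one_mem⟩
    | succ k ih =>
      intro hk
      obtain ⟨p, hp, hpa, hpm⟩ := ih (by omega)
      have hk1 : (((k + 1 : ℕ) : ℝ) / N) ≤ 1 := by
        rw [div_le_one hN0]; exact_mod_cast hk
      obtain ⟨q, hq, hqa⟩ := conv hh hB (t := ((k + 1 : ℕ) : ℝ) / N) (by positivity) hk1
      refine ⟨q, hq, hqa, ?_⟩
      have m1 : q * p⁻¹ ∈ HU := by
        apply small_mem (sm_mul hq (sm_inv hp))
        intro y
        obtain ⟨x, rfl⟩ := p.surjective y
        rw [Perm.mul_apply, ia, hqa, hpa]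
        have e : x + ((k + 1 : ℕ) : ℝ) / N * (h x - x) - (x + (k : ℝ) / N * (h x - x)) =
            (h x - x) / N := by push_cast; ring
        rw [e, abs_div, abs_of_pos hN0, div_lt_iff₀ hN0]
        have := hB x
        linarith
      have e : q = q * p⁻¹ * p := by group
      rw [e]
      exact HU.mul_mem m1 hpm
  obtain ⟨p, hp, hpa, hpm⟩ := key N le_rfl
  have : p = h := by
    ext x
    rw [hpa, div_self hN0.ne']; ring
  rwa [this] at hpm

end Pool.Agent.Q145.H2
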