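import Pool.Agent.Q145.H2.Comm
import Pool.Agent.Q145.H2.Frag

/-!
# Coding countably many pieces in two elements
-/

set_option autoImplicit false

namespace Pool.Agent.Q145.H2

open Equiv

/-- Act by `g` in the inner window `(0,1)`. -/
noncomputable def e0 (g : Perm ℝ) : Perm ℝ := E (fun j => if j = 0 then g else 1)

/-- The piece attached to a family: act in the inner window `(0,1)` of the outer windows
`(n, n+1)`, `n ≡ 1 mod 3`. -/
noncomputable def S (w : ℤ → Perm ℝ) : Perm ℝ :=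
  E (fun n => if n % 3 = 1 then e0 (w n) else 1)

lemma E_fix {g : ℤ → Perm ℝ} {x : ℝ} (h : g ⌊x⌋ = 1) : E g x = x := by
  rcases cases_th x with ⟨n, rfl⟩ | ⟨n, t, rfl⟩
  · exact E_int g n
  · rw [floor_th] at h
    rw [E_th, h]; rfl

/-- Every base piece is of the form `S w`. -/
theorem U_S {u : Perm ℝ} (hu : u ∈ U) :
    ∃ w : ℤ → Perm ℝ, (∀ n, StrictMono (w n)) ∧ u = S w := by
  obtain ⟨g, hg, hg1, rfl⟩ := hu
  set u : Perm ℝ := s3 * E g * s3⁻¹ with hu
  have hua : ∀ x, u x = E g (3 * x) / 3 := by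
    intro x
    rw [hu, Perm.mul_apply, Perm.mul_apply, s3_inv_apply, s3_apply]
  have hsm : StrictMono u := sm_mul (sm_mul s3_sm (E_sm hg)) (sm_inv s3_sm)
  have hfix : ∀ x, ⌊3 * x⌋ % 9 ≠ 4 → u x = x := by
    intro x hx
    rw [hua, E_fix (hg1 _ hx)]; ring
  have hint : ∀ m : ℤ, u (m / 3) = m / 3 := by
    intro m
    rw [hua]
    have : 3 * ((m : ℝ) / 3) = m := by ring
    rw [this, E_int]
  have hn : ∀ n : ℤ, u n = n := by
    intro n
    have e : (n : ℝ) = ((3 * n : ℤ) : ℝ) / 3 := by push_cast; ring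
    rw [e, hint]
  obtain ⟨f, hf, hfe⟩ := E_surj hsm hn
  have hfix2 : ∀ (n : ℤ) (t : ℝ), u (n + th t) = n + th t → f n t = t := by
    intro n t h
    rw [← hfe, E_th] at h
    exact th_mono.injective (by linarith)
  have hf1 : ∀ n, n % 3 ≠ 1 → f n = 1 := by
    intro n h3
    ext t
    apply hfix2
    apply hfix
    have h0 := th_pos t
    have h1 := th_lt t
    have a1 : 3 * n ≤ ⌊3 * ((n : ℝ) + th t)⌋ := by
      rw [Int.le_floor]; push_cast; linarith
    have a2 : ⌊3 * ((n : ℝ) + th t)⌋ < 3 * n + 3 := by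
      rw [Int.floor_lt]; push_cast; linarith
    omega
  have hf2 : ∀ (n : ℤ) (t : ℝ), t ≤ 0 → f n t = t := by
    intro n t ht
    apply hfix2
    have h0 := th_pos t
    have h1 : th t ≤ 1 / 3 := by rw [← th_zero]; exact th_mono.monotone ht
    rcases h1.lt_or_eq with h | h
    · apply hfix
      have a1 : ⌊3 * ((n : ℝ) + th t)⌋ = 3 * n := by
        rw [Int.floor_eq_iff]; push_cast; constructor <;> linarith
      rw [a1]; omega
    · rw [h]
      have e : (n : ℝ) + 1 / 3 = ((3 * n + 1 : ℤ) : ℝ) / 3 := by push_cast; ring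
      rw [e, hint]
  have hf3 : ∀ (n : ℤ) (t : ℝ), 1 ≤ t → f n t = t := by
    intro n t ht
    apply hfix2
    have h0 := th_lt t
    have h1 : 2 / 3 ≤ th t := by rw [← th_one]; exact th_mono.monotone ht
    apply hfix
    have a1 : ⌊3 * ((n : ℝ) + th t)⌋ = 3 * n + 2 := by
      rw [Int.floor_eq_iff]; push_cast; constructor <;> linarith
    rw [a1]; omega
  have hf4 : ∀ (n j : ℤ), f n j = j := by
    intro n j
    rcases le_or_gt j 0 with h | h
    · exact hf2 n j (by exact_mod_cast h)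
    · exact hf3 n j (by exact_mod_cast h)
  have hch : ∀ n, ∃ v : Perm ℝ, StrictMono v ∧ f n = e0 v := by
    intro n
    obtain ⟨v, hv, hve⟩ := E_surj (hf n) (hf4 n)
    refine ⟨v 0, hv 0, ?_⟩
    rw [← hve, e0]
    congr 1
    funext j
    split_ifs with hj
    · rw [hj]
    · ext t
      have : f n (j + th t) = j + th t := by
        have h0 := th_pos t
        have h1 := th_lt t
        rcases lt_or_gt_of_ne hj with h | h
        · apply hf2
          have : (j : ℝ) + 1 ≤ 0 := by exact_mod_cast h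
          linarith
        · apply hf3
          have : (1 : ℝ) ≤ j := by exact_mod_cast h
          linarith
      rw [← hve, E_th] at this
      show v j t = t
      exact th_mono.injective (by linarith)
  choose w hw hwe using hch
  refine ⟨w, hw, ?_⟩
  rw [← hfe, S]
  congr 1
  funext n
  split_ifs with h
  · exact hwe n
  · exact hf1 n h

/-- The positions. -/
def P (k : ℕ) : ℤ := 4 * 2 ^ k

lemma pow_sum {a e b : ℕ} (h : (2 : ℤ) ^ a + 2 ^ e = 2 ^ b) : a = e := by
  have aux : ∀ a e b : ℕ, (2 : ℤ) ^ a + 2 ^ e = 2 ^ b → ¬ a < e := by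
    intro a e b h hlt
    obtain ⟨d, rfl⟩ := Nat.exists_eq_add_of_lt hlt
    have hb : a < b := by
      have : (2 : ℤ) ^ a < 2 ^ b := by
        rw [← h]
        have : (0 : ℤ) < 2 ^ (a + d + 1) := by positivity
        linarith
      exact (pow_lt_pow_iff_right₀ (by norm_num)).mp this
    obtain ⟨f, rfl⟩ := Nat.exists_eq_add_of_lt hb
    have e1 : (2 : ℤ) ^ (a + d + 1) = 2 ^ a * (2 * 2 ^ d) := by ring
    have e2 : (2 : ℤ) ^ (a + f + 1) = 2 ^ a * (2 * 2 ^ f) := by ring
    rw [e1, e2] at h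
    have h3 : (2 : ℤ) ^ a * (1 + 2 * 2 ^ d) = 2 ^ a * (2 * 2 ^ f) := by linarith
    have h4 : (1 + 2 * 2 ^ d : ℤ) = 2 * 2 ^ f :=
      mul_left_cancel₀ (by positivity) h3
    omega
  rcases lt_trichotomy a e with h1 | h1 | h1
  · exact absurd h1 (aux a e b h)
  · exact h1
  · exact absurd h1 (aux e a b (by rw [add_comm]; exact h))

lemma P_inj : Function.Injective P := by
  intro a b h
  unfold P at h
  have : (2 : ℤ) ^ a = 2 ^ b := by linarith
  exact Int.pow_right_injective (by norm_num) this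

/-- The coded family. -/
noncomputable def cd (W : ℕ → ℤ → Perm ℝ) (n : ℤ) (j : ℤ) : Perm ℝ :=
  Function.extend P (fun k => W k n) (fun _ => 1) j

lemma cd_P (W : ℕ → ℤ → Perm ℝ) (n : ℤ) (k : ℕ) : cd W n (P k) = W k n :=
  P_inj.extend_apply _ _ _

lemma cd_ne (W : ℕ → ℤ → Perm ℝ) (n j : ℤ) (h : ∀ k, P k ≠ j) : cd W n j = 1 :=
  Function.extend_apply' _ _ _ (by rintro ⟨k, hk⟩; exact h k hk)

lemma cd_mod (W : ℕ → ℤ → Perm ℝ) (n j : ℤ) (h : j % 4 ≠ 0) : cd W n j = 1 := by
  apply cd_ne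
  intro k hk
  apply h
  rw [← hk, P]
  omega

lemma cd_sm {W : ℕ → ℤ → Perm ℝ} (hW : ∀ k n, StrictMono (W k n)) (n j : ℤ) :
    StrictMono (cd W n j) := by
  by_cases h : ∃ k, P k = j
  · obtain ⟨k, rfl⟩ := h
    rw [cd_P]; exact hW k n
  · push Not at h
    rw [cd_ne W n j h]; exact sm_one

/-- The commutator of a coded element with the translation, moved by `m`. -/
lemma inner (c : ℤ → Perm ℝ) (m : ℤ) :
    (tr 1 : Perm ℝ) ^ (-m) * (E c * tr 1 * (E c)⁻¹ * (tr 1)⁻¹) * (tr 1) ^ m =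
      E (fun j => c (j + m) * (c (j + m - 1))⁻¹) := by
  have h1 := E_conj c⁻¹ 1
  have h2 : E c * tr 1 * (E c)⁻¹ * (tr 1)⁻¹ = E (fun j => c j * (c (j - 1))⁻¹) := by
    have e : E c * tr 1 * (E c)⁻¹ * (tr 1)⁻¹ = E c * (tr 1 * (E c)⁻¹ * (tr 1)⁻¹) := by group
    rw [e, ← E_inv]
    have h1' : tr 1 * E c⁻¹ * (tr 1)⁻¹ = E (fun n => c⁻¹ (n - 1)) := by
      have := h1
      push_cast at this
      exact this
    rw [h1', ← E_mul]
    rfl
  rw [h2]
  have h3 := E_conj (fun j => c j * (c (j - 1))⁻¹) (-m)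
  have e1 : (tr 1 : Perm ℝ) ^ (-m) = tr ((-m : ℤ) : ℝ) := by
    rw [tr_zpow]; congr 1; push_cast; ring
  have e2 : (tr 1 : Perm ℝ) ^ m = (tr ((-m : ℤ) : ℝ))⁻¹ := by
    rw [← e1, zpow_neg, inv_inv]
  rw [e1, e2, h3]
  congr 1
  funext j
  simp only [sub_neg_eq_add]

/-- The key commutator computation. -/
lemma inner_comm (W : ℕ → ℤ → Perm ℝ) (n : ℤ) (i : ℕ) (j : ℤ) :
    (cd W n (j + P i) * (cd W n (j + P i - 1))⁻¹) *
      (cd W n (j + (P (i + 1) + 1)) * (cd W n (j + (P (i + 1) + 1) - 1))⁻¹) *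
      (cd W n (j + P i) * (cd W n (j + P i - 1))⁻¹)⁻¹ *
      (cd W n (j + (P (i + 1) + 1)) * (cd W n (j + (P (i + 1) + 1) - 1))⁻¹)⁻¹ =
    if j = 0 then W i n * (W (i + 1) n)⁻¹ * (W i n)⁻¹ * W (i + 1) n else 1 := by
  have hP1 : P i % 4 = 0 := by unfold P; omega
  have hP2 : P (i + 1) % 4 = 0 := by unfold P; omega
  have e1 : j + (P (i + 1) + 1) - 1 = j + P (i + 1) := by ring
  rw [e1]
  split_ifs with hj
  · subst hj
    rw [zero_add, zero_add, zero_add, cd_P, cd_P, cd_mod W n (P i - 1) (by omega),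
      cd_mod W n (P (i + 1) + 1) (by omega)]
    group
  · by_cases h4 : j % 4 = 0
    · rw [cd_mod W n (j + P i - 1) (by omega), cd_mod W n (j + (P (i + 1) + 1)) (by omega)]
      by_cases ha : ∃ a, P a = j + P i
      · by_cases hb : ∃ b, P b = j + P (i + 1)
        · exfalso
          obtain ⟨a, ha⟩ := ha
          obtain ⟨b, hb⟩ := hb
          apply hj
          unfold P at ha hb
          have h5 : (2 : ℤ) ^ a + 2 ^ i = 2 ^ b := by
            have : (2 : ℤ) ^ (i + 1) = 2 * 2 ^ i := by ring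
            rw [this] at hb
            linarith
          have h6 := pow_sum h5
          rw [h6] at ha
          linarith
        · push Not at hb
          rw [cd_ne W n (j + P (i + 1)) hb]
          group
      · push Not at ha
        rw [cd_ne W n (j + P i) ha]
        group
    · by_cases h5 : j % 4 = 1
      · rw [cd_mod W n (j + (P (i + 1) + 1)) (by omega), cd_mod W n (j + P (i + 1)) (by omega)]
        group
      · rw [cd_mod W n (j + P i) (by omega), cd_mod W n (j + P i - 1) (by omega)]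
        group

/-- Coding: the pieces attached to the commutators of consecutive families lie in the group
generated by the translation and one further increasing bijection. -/
theorem code_aux (W : ℕ → ℤ → Perm ℝ) (hW : ∀ k n, StrictMono (W k n)) :
    ∃ b : Perm ℝ, StrictMono b ∧ ∀ i,
      S (fun n => W i n * (W (i + 1) n)⁻¹ * (W i n)⁻¹ * W (i + 1) n) ∈
        Subgroup.closure ({tr 1, b} : Set (Perm ℝ)) := by
  set B : ℤ → Perm ℝ := fun n =>
    if n % 3 = 0 then tr 1 else if n % 3 = 1 then E (cd W n) else 1 with hB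
  set B' : ℤ → Perm ℝ := fun n => B (n - 1) with hB'
  have hBsm : ∀ n, StrictMono (B n) := by
    intro n
    simp only [hB]
    split_ifs
    · exact tr_sm 1
    · exact E_sm (cd_sm hW n)
    · exact sm_one
  refine ⟨E B, E_sm hBsm, fun i => ?_⟩
  set K := Subgroup.closure ({tr 1, E B} : Set (Perm ℝ)) with hK
  have mT : tr 1 ∈ K := Subgroup.subset_closure (by simp)
  have mB : E B ∈ K := Subgroup.subset_closure (by simp)
  have mB' : E B' ∈ K := by
    have h := E_conj B 1
    have h' : tr 1 * E B * (tr 1)⁻¹ = E B' := by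
      push_cast at h
      exact h
    rw [← h']
    exact K.mul_mem (K.mul_mem mT mB) (K.inv_mem mT)
  set D : ℤ → ℤ → Perm ℝ := fun m => B' ^ (-m) * (B * B' * B⁻¹ * B'⁻¹) * B' ^ m with hD
  have mD : ∀ m : ℤ, E (D m) ∈ K := by
    intro m
    have e : E (D m) = (E B') ^ (-m) * (E B * E B' * (E B)⁻¹ * (E B')⁻¹) * (E B') ^ m := by
      have := map_zpow Eh B' (-m)
      have h2 := map_zpow Eh B' m
      change E (B' ^ (-m)) = (E B') ^ (-m) at this
      change E (B' ^ m) = (E B') ^ m at h2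
      simp only [hD]
      rw [E_mul, E_mul, E_mul, E_mul, E_mul, E_inv, E_inv, this, h2]
    rw [e]
    exact K.mul_mem (K.mul_mem (K.zpow_mem mB' _)
      (K.mul_mem (K.mul_mem (K.mul_mem mB mB') (K.inv_mem mB)) (K.inv_mem mB'))) (K.zpow_mem mB' _)
  have hD1 : ∀ (m n : ℤ), n % 3 ≠ 1 → D m n = 1 := by
    intro m n hn
    simp only [hD, Pi.mul_apply, Pi.pow_apply, Pi.inv_apply]
    rcases (show n % 3 = 0 ∨ n % 3 = 2 by omega) with h | h
    · have e1 : B' n = 1 := by
        simp only [hB', hB]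
        rw [if_neg (by omega), if_neg (by omega)]
      rw [e1]; group
    · have e1 : B n = 1 := by
        simp only [hB]
        rw [if_neg (by omega), if_neg (by omega)]
      rw [e1]; group
  have hD2 : ∀ (m n : ℤ), n % 3 = 1 →
      D m n = E (fun j => cd W n (j + m) * (cd W n (j + m - 1))⁻¹) := by
    intro m n hn
    simp only [hD, Pi.mul_apply, Pi.pow_apply, Pi.inv_apply]
    have e1 : B n = E (cd W n) := by
      simp only [hB]
      rw [if_neg (by omega), if_pos hn]
    have e2 : B' n = tr 1 := by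
      simp only [hB', hB]
      rw [if_pos (by omega)]
    rw [e1, e2, ← inner]
  have hfin : S (fun n => W i n * (W (i + 1) n)⁻¹ * (W i n)⁻¹ * W (i + 1) n) =
      E (D (P i)) * E (D (P (i + 1) + 1)) * (E (D (P i)))⁻¹ * (E (D (P (i + 1) + 1)))⁻¹ := by
    rw [← E_inv, ← E_inv, ← E_mul, ← E_mul, ← E_mul, S]
    congr 1
    funext n
    simp only [Pi.mul_apply, Pi.inv_apply]
    split_ifs with hn
    · rw [hD2 _ _ hn, hD2 _ _ hn, ← E_inv, ← E_inv, ← E_mul, ← E_mul, ← E_mul, e0]
      congr 1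
      funext j
      exact (inner_comm W n i j).symm
    · rw [hD1 _ _ hn, hD1 _ _ hn]; group
  rw [hfin]
  exact K.mul_mem (K.mul_mem (K.mul_mem (mD _) (mD _)) (K.inv_mem (mD _))) (K.inv_mem (mD _))

/-- Coding: countably many pieces lie in a group generated by the translation and one further
increasing bijection. -/
theorem code (w : ℕ → ℤ → Perm ℝ) (hw : ∀ i n, StrictMono (w i n)) :
    ∃ b : Perm ℝ, StrictMono b ∧ ∀ i, S (w i) ∈
        Subgroup.closure ({tr 1, b} : Set (Perm ℝ)) := by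
  have h := fun i n => comm (hw i n)
  choose u v hu hv huv using h
  obtain ⟨b, hb, hmem⟩ := code_aux (fun k n => if k % 2 = 0 then u (k / 2) n else v (k / 2) n) (by
    intro k n
    split_ifs
    · exact hu _ _
    · exact hv _ _)
  refine ⟨b, hb, fun i => ?_⟩
  have h1 := hmem (2 * i)
  have e1 : 2 * i % 2 = 0 := by omega
  have e2 : ¬ (2 * i + 1) % 2 = 0 := by omega
  have e3 : 2 * i / 2 = i := by omega
  have e4 : (2 * i + 1) / 2 = i := by omega
  simp only [e1, e2, e3, e4, if_true, if_false] at h1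
  have e5 : w i = fun n => u i n * (v i n)⁻¹ * (u i n)⁻¹ * v i n := by
    funext n
    exact huv i n
  rw [e5]
  exact h1

end Pool.Agent.Q145.H2
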