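import Pool.Agent.Q145.H2.Basic

/-!
# Every increasing bijection of the line is a commutator
-/

set_option autoImplicit false

namespace Pool.Agent.Q145.H2

open Equiv

lemma sm_pow {f : Perm ℝ} (hf : StrictMono f) (n : ℕ) : StrictMono (f ^ n : Perm ℝ) := by
  induction n with
  | zero => exact sm_one
  | succ n ih => rw [pow_succ]; exact sm_mul ih hf

lemma sm_zpow {f : Perm ℝ} (hf : StrictMono f) (n : ℤ) : StrictMono (f ^ n : Perm ℝ) := by
  cases n with
  | ofNat n => simpa using sm_pow hf n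
  | negSucc n => rw [zpow_negSucc]; exact sm_inv (sm_pow hf _)

lemma exists_gt_pow {f : Perm ℝ} (hf : StrictMono f) (hr : ∀ x, x < f x) (y : ℝ) :
    ∃ n : ℕ, y < (f ^ n) 0 := by
  by_contra hc
  push Not at hc
  have hb : BddAbove (Set.range fun n : ℕ => (f ^ n) 0) := ⟨y, by rintro _ ⟨n, rfl⟩; exact hc n⟩
  set L := ⨆ n : ℕ, (f ^ n) 0 with hL
  have h1 : f⁻¹ L < L := by
    have := hr (f⁻¹ L)
    rwa [ai] at this
  obtain ⟨n, hn⟩ := exists_lt_of_lt_ciSup h1
  have h2 := hf hn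
  rw [ai, ← Perm.mul_apply, ← pow_succ'] at h2
  have h3 : (f ^ (n + 1)) 0 ≤ L := le_ciSup hb (n + 1)
  linarith

lemma exists_lt_pow {f : Perm ℝ} (hf : StrictMono f) (hr : ∀ x, x < f x) (y : ℝ) :
    ∃ n : ℕ, (f⁻¹ ^ n) 0 ≤ y := by
  by_contra hc
  push Not at hc
  have hb : BddBelow (Set.range fun n : ℕ => (f⁻¹ ^ n) 0) :=
    ⟨y, by rintro _ ⟨n, rfl⟩; exact (hc n).le⟩
  set L := ⨅ n : ℕ, (f⁻¹ ^ n) 0 with hL
  have h1 : L < f L := hr L
  obtain ⟨n, hn⟩ := exists_lt_of_ciInf_lt h1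
  have h2 := sm_inv hf hn
  rw [ia, ← Perm.mul_apply, ← pow_succ'] at h2
  have h3 : L ≤ (f⁻¹ ^ (n + 1)) 0 := ciInf_le hb (n + 1)
  linarith

/-- An increasing bijection moving every point to the right is conjugate to the translation. -/
theorem conj_tr {f : Perm ℝ} (hf : StrictMono f) (hr : ∀ x, x < f x) :
    ∃ u : Perm ℝ, StrictMono u ∧ f = u * tr 1 * u⁻¹ := by
  have hf0 : 0 < f 0 := hr 0
  have hstep : ∀ (n : ℤ) (x : ℝ), (f ^ (n + 1)) x = (f ^ n) (f x) := by
    intro n x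
    rw [zpow_add_one, Perm.mul_apply]
  obtain ⟨u, hu, hv⟩ := glue (fun n t => (f ^ n) (t * f 0)) (fun n => (f ^ n) 0)
    (by intro n; simp)
    (by
      intro n s t _ hst _
      exact sm_zpow hf n (mul_lt_mul_of_pos_right hst hf0))
    (by
      intro n t _ ht
      show (f ^ n) (t * f 0) < (f ^ (n + 1)) 0
      rw [hstep]
      exact sm_zpow hf n (by nlinarith))
    (by
      intro n y h1 h2
      change (f ^ n) 0 ≤ y at h1
      change y < (f ^ (n + 1)) 0 at h2
      rw [hstep] at h2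
      have e : (f ^ n) ((f ^ n)⁻¹ y) = y := ai _ y
      refine ⟨(f ^ n)⁻¹ y / f 0, ?_, ?_, ?_⟩
      · apply div_nonneg _ hf0.le
        rw [← (sm_zpow hf n).le_iff_le, e]; exact h1
      · rw [div_lt_one hf0, ← (sm_zpow hf n).lt_iff_lt, e]; exact h2
      · show (f ^ n) ((f ^ n)⁻¹ y / f 0 * f 0) = y
        rw [div_mul_cancel₀ _ hf0.ne', e])
    (by
      intro y
      obtain ⟨n, hn⟩ := exists_gt_pow hf hr y
      exact ⟨n, by simpa using hn⟩)
    (by
      intro y
      obtain ⟨n, hn⟩ := exists_lt_pow hf hr y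
      exact ⟨-n, by simpa using hn⟩)
  refine ⟨u, hu, ?_⟩
  have key : ∀ x, u (x + 1) = f (u x) := by
    intro x
    rw [hv, hv]
    simp only [Int.floor_add_one, Int.fract_add_one]
    rw [add_comm, zpow_add, zpow_one, Perm.mul_apply]
  rw [eq_mul_inv_iff_mul_eq]
  ext x
  simp only [Perm.mul_apply, tr_apply, key]

/-- The maximum of the identity and an increasing bijection. -/
noncomputable def mx (g : Perm ℝ) (hg : StrictMono g) : Perm ℝ where
  toFun x := max x (g⁻¹ x)
  invFun x := min x (g x)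
  left_inv := by
    intro x
    rcases le_total (g⁻¹ x) x with h | h
    · have h2 : x ≤ g x := by have := hg.monotone h; rwa [ai] at this
      simp only [max_eq_left h, min_eq_left h2]
    · simp only [max_eq_right h, ai, min_eq_right h]
  right_inv := by
    intro x
    rcases le_total x (g x) with h | h
    · have h2 : g⁻¹ x ≤ x := by have := (sm_inv hg).monotone h; rwa [ia] at this
      simp only [min_eq_left h, max_eq_left h2]
    · simp only [min_eq_right h, ia, max_eq_right h]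

/-- Every increasing bijection of the line is a commutator of two such. -/
theorem comm {g : Perm ℝ} (hg : StrictMono g) :
    ∃ u v : Perm ℝ, StrictMono u ∧ StrictMono v ∧ g = u * v⁻¹ * u⁻¹ * v := by
  set w : Perm ℝ := tr 1 * mx g hg with hw
  have hwa : ∀ x, w x = max x (g⁻¹ x) + 1 := fun x => rfl
  have hmx : StrictMono w := by
    intro a b hab
    rw [hwa, hwa]
    have h1 := sm_inv hg hab
    have : max a (g⁻¹ a) < max b (g⁻¹ b) := max_lt_max hab h1
    linarith
  have h1 : ∀ x, x < w x := by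
    intro x
    rw [hwa]
    have := le_max_left x (g⁻¹ x)
    linarith
  have h2 : ∀ x, x < (g * w) x := by
    intro x
    rw [Perm.mul_apply, hwa]
    have h3 : g⁻¹ x < max x (g⁻¹ x) + 1 := by
      have := le_max_right x (g⁻¹ x)
      linarith
    have := hg h3
    rwa [ai] at this
  obtain ⟨a, ha, ha'⟩ := conj_tr hmx h1
  obtain ⟨b, hb, hb'⟩ := conj_tr (sm_mul hg hmx) h2
  refine ⟨b * a⁻¹, w⁻¹, sm_mul hb (sm_inv ha), sm_inv hmx, ?_⟩
  have e1 : tr 1 = a⁻¹ * w * a := by rw [ha']; group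
  have e2 : g * w = b * (a⁻¹ * w * a) * b⁻¹ := by rw [← e1]; exact hb'
  calc g = (g * w) * w⁻¹ := by group
    _ = b * (a⁻¹ * w * a) * b⁻¹ * w⁻¹ := by rw [e2]
    _ = b * a⁻¹ * w⁻¹⁻¹ * (b * a⁻¹)⁻¹ * w⁻¹ := by group

end Pool.Agent.Q145.H2
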