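import Pool.Agent.Q145.H2.Basic

/-!
# Normalisation: countably many increasing bijections have bounded displacement in one coordinate
-/

set_option autoImplicit false

namespace Pool.Agent.Q145.H2

open Equiv

/-- Fast growing nodes. -/
noncomputable def Z (s : ℕ → Perm ℝ) : ℕ → ℝ
  | 0 => 0
  | k + 1 => 1 + Z s k + ∑ i ∈ Finset.range (k + 1),
      (|s i (Z s k)| + |(s i)⁻¹ (Z s k)| + |s i (-Z s k)| + |(s i)⁻¹ (-Z s k)|)

lemma Z_step (s : ℕ → Perm ℝ) (k i : ℕ) (hi : i ≤ k) :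
    1 + Z s k + (|s i (Z s k)| + |(s i)⁻¹ (Z s k)| + |s i (-Z s k)| + |(s i)⁻¹ (-Z s k)|) ≤
      Z s (k + 1) := by
  have h := Finset.single_le_sum
    (f := fun i => |s i (Z s k)| + |(s i)⁻¹ (Z s k)| + |s i (-Z s k)| + |(s i)⁻¹ (-Z s k)|)
    (fun i _ => by positivity) (Finset.mem_range.mpr (Nat.lt_succ_of_le hi))
  have e : Z s (k + 1) = 1 + Z s k + ∑ i ∈ Finset.range (k + 1),
      (|s i (Z s k)| + |(s i)⁻¹ (Z s k)| + |s i (-Z s k)| + |(s i)⁻¹ (-Z s k)|) := rfl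
  rw [e]
  have h' : (|s i (Z s k)| + |(s i)⁻¹ (Z s k)| + |s i (-Z s k)| + |(s i)⁻¹ (-Z s k)|) ≤
    ∑ i ∈ Finset.range (k + 1),
      (|s i (Z s k)| + |(s i)⁻¹ (Z s k)| + |s i (-Z s k)| + |(s i)⁻¹ (-Z s k)|) := h
  linarith

lemma Z_succ (s : ℕ → Perm ℝ) (k : ℕ) : 1 + Z s k ≤ Z s (k + 1) := by
  have h := Z_step s k k le_rfl
  have h1 := abs_nonneg (s k (Z s k))
  have h2 := abs_nonneg ((s k)⁻¹ (Z s k))
  have h3 := abs_nonneg (s k (-Z s k))
  have h4 := abs_nonneg ((s k)⁻¹ (-Z s k))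
  linarith

lemma Z_ge (s : ℕ → Perm ℝ) (k : ℕ) : (k : ℝ) ≤ Z s k := by
  induction k with
  | zero => simp [Z]
  | succ k ih => have := Z_succ s k; push_cast; linarith

/-- The nodes. -/
noncomputable def nd (s : ℕ → Perm ℝ) (n : ℤ) : ℝ :=
  if 0 ≤ n then Z s n.toNat else -Z s (-n).toNat

lemma nd_nat (s : ℕ → Perm ℝ) (k : ℕ) : nd s (k : ℤ) = Z s k := by
  simp [nd]

lemma nd_neg (s : ℕ → Perm ℝ) (k : ℕ) : nd s (-(k : ℤ)) = -Z s k := by
  unfold nd
  rcases Nat.eq_zero_or_pos k with h | h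
  · subst h; simp [Z]
  · rw [if_neg (by omega)]
    simp

lemma nd_step (s : ℕ → Perm ℝ) (n : ℤ) : nd s n < nd s (n + 1) := by
  rcases le_or_gt 0 n with h | h
  · obtain ⟨k, rfl⟩ := Int.eq_ofNat_of_zero_le h
    have e : ((k : ℤ) + 1) = ((k + 1 : ℕ) : ℤ) := by push_cast; ring
    rw [nd_nat, e, nd_nat]
    have := Z_succ s k
    linarith
  · obtain ⟨k, hk⟩ : ∃ k : ℕ, n = -((k + 1 : ℕ) : ℤ) := ⟨(-n - 1).toNat, by omega⟩
    have e : n + 1 = -(k : ℤ) := by omega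
    rw [e, nd_neg, hk, nd_neg]
    have := Z_succ s k
    linarith

lemma disp {p : Perm ℝ} (hp : StrictMono p) {C : ℝ} (h1 : ∀ y, |p y| ≤ |y| + C)
    (h2 : ∀ y, |(p⁻¹ : Perm ℝ) y| ≤ |y| + C) (y : ℝ) : |p y - y| ≤ 3 * C := by
  have h0 := h1 0
  rw [abs_zero, zero_add] at h0
  have hC : 0 ≤ C := (abs_nonneg _).trans h0
  have h3 := h1 y
  have h4 := h2 (p y)
  rw [ia] at h4
  rcases le_total 0 y with hy | hy
  · have h5 := hp.monotone hy
    have h6 := (abs_le.mp h0).1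
    rw [abs_of_nonneg hy] at h3 h4
    have h7 := (abs_le.mp h3).2
    rw [abs_le]
    rcases le_total 0 (p y) with hz | hz
    · rw [abs_of_nonneg hz] at h4
      constructor <;> linarith
    · rw [abs_of_nonpos hz] at h4
      constructor <;> linarith
  · have h5 := hp.monotone hy
    have h6 := (abs_le.mp h0).2
    rw [abs_of_nonpos hy] at h3 h4
    have h7 := (abs_le.mp h3).1
    rw [abs_le]
    rcases le_total 0 (p y) with hz | hz
    · rw [abs_of_nonneg hz] at h4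
      constructor <;> linarith
    · rw [abs_of_nonpos hz] at h4
      constructor <;> linarith

theorem normalise (s : ℕ → Perm ℝ) (hs : ∀ i, StrictMono (s i)) :
    ∃ ψ : Perm ℝ, StrictMono ψ ∧ ∀ i, ∃ B : ℝ, ∀ x, |(ψ * s i * ψ⁻¹) x - x| ≤ B := by
  obtain ⟨φ, hφ, hv⟩ := interp (nd s) (nd_step s)
    (by
      intro y
      refine ⟨((⌈|y|⌉₊ + 1 : ℕ) : ℤ), ?_⟩
      rw [nd_nat]
      have h1 := Z_ge s (⌈|y|⌉₊ + 1)
      have h2 := Nat.le_ceil |y|
      have h3 := le_abs_self y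
      push_cast at h1
      linarith)
    (by
      intro y
      refine ⟨-((⌈|y|⌉₊ + 1 : ℕ) : ℤ), ?_⟩
      rw [nd_neg]
      have h1 := Z_ge s (⌈|y|⌉₊ + 1)
      have h2 := Nat.le_ceil |y|
      have h3 := neg_abs_le y
      push_cast at h1
      linarith)
  have hφn : ∀ k : ℕ, φ (k : ℝ) = Z s k := by
    intro k
    have := hv (k : ℤ)
    rw [nd_nat] at this
    exact_mod_cast this
  have hφm : ∀ k : ℕ, φ (-(k : ℝ)) = -Z s k := by
    intro k
    have := hv (-(k : ℤ))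
    rw [nd_neg] at this
    exact_mod_cast this
  have key : ∀ (i : ℕ) (t : Perm ℝ), StrictMono t →
      (∀ k, i ≤ k → |t (Z s k)| ≤ Z s (k + 1) ∧ |t (-Z s k)| ≤ Z s (k + 1)) →
      ∀ y, |(φ⁻¹ * t * φ) y| ≤ |y| + (i + 2) := by
    intro i t ht hb y
    set k : ℕ := max i ⌈|y|⌉₊ with hk
    have hk1 : i ≤ k := le_max_left _ _
    have hk2 : |y| ≤ k := (Nat.le_ceil _).trans (by exact_mod_cast le_max_right _ _)
    have hk3 : (k : ℝ) ≤ |y| + 1 + i := by
      rw [hk]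
      rcases le_total i ⌈|y|⌉₊ with h | h
      · rw [max_eq_right h]
        have := (Nat.ceil_lt_add_one (abs_nonneg y)).le
        have : (0 : ℝ) ≤ i := Nat.cast_nonneg i
        linarith
      · rw [max_eq_left h]
        have := abs_nonneg y
        linarith
    obtain ⟨hb1, hb2⟩ := hb k hk1
    have hy1 : y ≤ k := (le_abs_self y).trans hk2
    have hy2 : -(k : ℝ) ≤ y := by have := neg_abs_le y; linarith
    have u1 : t (φ y) ≤ Z s (k + 1) := by
      have h1 := ht.monotone (hφ.monotone hy1)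
      rw [hφn] at h1
      exact h1.trans ((le_abs_self _).trans hb1)
    have u2 : -Z s (k + 1) ≤ t (φ y) := by
      have h1 := ht.monotone (hφ.monotone hy2)
      rw [hφm] at h1
      have h2 := (abs_le.mp hb2).1
      linarith
    have v1 : φ⁻¹ (t (φ y)) ≤ ((k + 1 : ℕ) : ℝ) := by
      rw [← hφ.le_iff_le, ai, hφn]; exact u1
    have v2 : -((k + 1 : ℕ) : ℝ) ≤ φ⁻¹ (t (φ y)) := by
      rw [← hφ.le_iff_le, ai, hφm]; exact u2
    rw [Perm.mul_apply, Perm.mul_apply, abs_le]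
    push_cast at v1 v2
    constructor <;> linarith
  have hnn : ∀ k, 0 ≤ Z s k := fun k => (Nat.cast_nonneg k).trans (Z_ge s k)
  refine ⟨φ⁻¹, sm_inv hφ, fun i => ⟨3 * (i + 2), ?_⟩⟩
  have k1 := key i (s i) (hs i) (by
    intro k hk
    have h := Z_step s k i hk
    have h1 := abs_nonneg (s i (Z s k))
    have h2 := abs_nonneg ((s i)⁻¹ (Z s k))
    have h3 := abs_nonneg (s i (-Z s k))
    have h4 := abs_nonneg ((s i)⁻¹ (-Z s k))
    have h5 := hnn k
    constructor <;> linarith)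
  have k2 := key i (s i)⁻¹ (sm_inv (hs i)) (by
    intro k hk
    have h := Z_step s k i hk
    have h1 := abs_nonneg (s i (Z s k))
    have h2 := abs_nonneg ((s i)⁻¹ (Z s k))
    have h3 := abs_nonneg (s i (-Z s k))
    have h4 := abs_nonneg ((s i)⁻¹ (-Z s k))
    have h5 := hnn k
    constructor <;> linarith)
  have e1 : φ⁻¹ * s i * φ⁻¹⁻¹ = φ⁻¹ * s i * φ := by rw [inv_inv]
  have e2 : (φ⁻¹ * s i * φ)⁻¹ = φ⁻¹ * (s i)⁻¹ * φ := by group
  rw [e1]
  intro x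
  refine disp (sm_mul (sm_mul (sm_inv hφ) (hs i)) hφ) k1 ?_ x
  rw [e2]
  exact k2

end Pool.Agent.Q145.H2
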