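import Pool.Agent.Q145.H2.Code
import Pool.Agent.Q145.H2.Norm

/-!
# Every countable set of increasing bijections of the line lies in a two-generated subgroup
-/

set_option autoImplicit false

namespace Pool.Agent.Q145.H2

open Equiv

/-- Membership in the group generated by `U` uses only countably many elements of `U`. -/
lemma countable_support {h : Perm ℝ} (hh : h ∈ HU) :
    ∃ V : Set (Perm ℝ), V ⊆ U ∧ V.Countable ∧
      h ∈ Subgroup.closure (insert (tr (1 / 6)) V) := by
  unfold HU at hh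
  induction hh using Subgroup.closure_induction with
  | mem x hx =>
    rcases hx with rfl | hx
    · exact ⟨∅, Set.empty_subset _, Set.countable_empty,
        Subgroup.subset_closure (Set.mem_insert _ _)⟩
    · exact ⟨{x}, Set.singleton_subset_iff.mpr hx, Set.countable_singleton x,
        Subgroup.subset_closure (by simp)⟩
  | one => exact ⟨∅, Set.empty_subset _, Set.countable_empty, Subgroup.one_mem _⟩
  | mul x y _ _ hx hy =>
    obtain ⟨V, h1, h2, h3⟩ := hx
    obtain ⟨W, k1, k2, k3⟩ := hy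
    refine ⟨V ∪ W, Set.union_subset h1 k1, h2.union k2, Subgroup.mul_mem _ ?_ ?_⟩
    · exact Subgroup.closure_mono (Set.insert_subset_insert Set.subset_union_left) h3
    · exact Subgroup.closure_mono (Set.insert_subset_insert Set.subset_union_right) k3
  | inv x _ hx =>
    obtain ⟨V, h1, h2, h3⟩ := hx
    exact ⟨V, h1, h2, Subgroup.inv_mem _ h3⟩

lemma conj_closure (c a b : Perm ℝ) {x : Perm ℝ}
    (hx : x ∈ Subgroup.closure ({a, b} : Set (Perm ℝ))) :
    c * x * c⁻¹ ∈ Subgroup.closure ({c * a * c⁻¹, c * b * c⁻¹} : Set (Perm ℝ)) := by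
  induction hx using Subgroup.closure_induction with
  | mem x hx =>
    rcases hx with rfl | hx
    · exact Subgroup.subset_closure (by simp)
    · rw [Set.mem_singleton_iff] at hx
      subst hx
      exact Subgroup.subset_closure (by simp)
  | one => simp
  | mul x y _ _ hx hy =>
    have : c * (x * y) * c⁻¹ = (c * x * c⁻¹) * (c * y * c⁻¹) := by group
    rw [this]
    exact Subgroup.mul_mem _ hx hy
  | inv x _ hx =>
    have : c * x⁻¹ * c⁻¹ = (c * x * c⁻¹)⁻¹ := by group
    rw [this]
    exact Subgroup.inv_mem _ hx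

/-- Every countable set of increasing bijections of the real line is contained in the subgroup
generated by two increasing bijections of the real line. -/
theorem main (T : Set (Perm ℝ)) (hT : T.Countable) (hm : ∀ σ ∈ T, StrictMono σ) :
    ∃ f g : Perm ℝ, StrictMono f ∧ StrictMono g ∧
      T ⊆ (Subgroup.closure ({f, g} : Set (Perm ℝ)) : Set (Perm ℝ)) := by
  -- enumerate
  obtain ⟨s, hs⟩ := (hT.insert (1 : Perm ℝ)).exists_eq_range (Set.insert_nonempty _ _)
  have hsm : ∀ i, StrictMono (s i) := by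
    intro i
    have : s i ∈ insert (1 : Perm ℝ) T := by rw [hs]; exact ⟨i, rfl⟩
    rcases this with h | h
    · rw [h]; exact sm_one
    · exact hm _ h
  obtain ⟨ψ, hψ, hB⟩ := normalise s hsm
  have h1 : ∀ i, ψ * s i * ψ⁻¹ ∈ HU := by
    intro i
    obtain ⟨B, hB⟩ := hB i
    exact bdd_mem (sm_mul (sm_mul hψ (hsm i)) (sm_inv hψ)) hB
  choose V hVU hVc hV using fun i => countable_support (h1 i)
  -- enumerate the pieces
  have hU1 : (1 : Perm ℝ) ∈ U := ⟨1, fun _ => sm_one, fun _ _ => rfl, by rw [E_one]; group⟩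
  obtain ⟨u, hu⟩ := ((Set.countable_iUnion hVc).insert (1 : Perm ℝ)).exists_eq_range
    (Set.insert_nonempty _ _)
  have huU : ∀ k, u k ∈ U := by
    intro k
    have : u k ∈ insert (1 : Perm ℝ) (⋃ i, V i) := by rw [hu]; exact ⟨k, rfl⟩
    rcases this with h | h
    · rw [h]; exact hU1
    · obtain ⟨i, hi⟩ := Set.mem_iUnion.mp h
      exact hVU i hi
  choose w hw hwe using fun k => U_S (huU k)
  obtain ⟨b, hb, hmem⟩ := code w hw
  have h6 : tr (1 / 6) ^ 6 = tr 1 := by rw [tr_pow]; congr 1; norm_num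
  have hle : Subgroup.closure ({tr 1, b} : Set (Perm ℝ)) ≤
      Subgroup.closure ({tr (1 / 6), b} : Set (Perm ℝ)) := by
    rw [Subgroup.closure_le]
    rintro x (rfl | hx)
    · rw [← h6]
      exact Subgroup.pow_mem _ (Subgroup.subset_closure (by simp)) 6
    · rw [Set.mem_singleton_iff] at hx
      subst hx
      exact Subgroup.subset_closure (by simp)
  have hk : ∀ k, u k ∈ Subgroup.closure ({tr (1 / 6), b} : Set (Perm ℝ)) := by
    intro k
    rw [hwe k]
    exact hle (hmem k)
  have h2 : ∀ i, ψ * s i * ψ⁻¹ ∈ Subgroup.closure ({tr (1 / 6), b} : Set (Perm ℝ)) := by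
    intro i
    have hle2 : Subgroup.closure (insert (tr (1 / 6)) (V i)) ≤
        Subgroup.closure ({tr (1 / 6), b} : Set (Perm ℝ)) := by
      rw [Subgroup.closure_le]
      rintro x (rfl | hx)
      · exact Subgroup.subset_closure (by simp)
      · have : x ∈ Set.range u := by
          rw [← hu]
          exact Set.mem_insert_of_mem _ (Set.mem_iUnion.mpr ⟨i, hx⟩)
        obtain ⟨k, rfl⟩ := this
        exact hk k
    exact hle2 (hV i)
  refine ⟨ψ⁻¹ * tr (1 / 6) * ψ⁻¹⁻¹, ψ⁻¹ * b * ψ⁻¹⁻¹,
    sm_mul (sm_mul (sm_inv hψ) (tr_sm _)) (sm_inv (sm_inv hψ)),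
    sm_mul (sm_mul (sm_inv hψ) hb) (sm_inv (sm_inv hψ)), ?_⟩
  intro x hx
  have : x ∈ Set.range s := by rw [← hs]; exact Set.mem_insert_of_mem _ hx
  obtain ⟨i, rfl⟩ := this
  have h3 := conj_closure ψ⁻¹ _ _ (h2 i)
  have e : ψ⁻¹ * (ψ * s i * ψ⁻¹) * ψ⁻¹⁻¹ = s i := by group
  rwa [e] at h3

end Pool.Agent.Q145.H2
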